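import Pool.Agent.H65.CM4.Targets1

/-!
# Norms and traces of a totally real field (row EMB)
-/

set_option autoImplicit false

open MeasureTheory Set Filter NumberField NumberField.InfinitePlace Pool.Agent.H65.CM4
open scoped Real

namespace Pool.Agent.H98.CM4

section

variable (k : Type) [Field k] [NumberField k] [IsTotallyReal k]

variable {k}

theorem abs_rv (v : Pl k) (x : k) : |rv v x| = v x := by
  rw [← Real.norm_eq_abs]
  exact norm_embedding_of_isReal (IsTotallyReal.isReal v) x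

theorem Nr_eq (x : k) : Nr x = |((Algebra.norm ℚ x : ℚ) : ℝ)| := by
  have h := prod_eq_abs_norm (K := k) x
  simp only [IsTotallyReal.mult_eq, pow_one] at h
  have e : Nr x = ∏ w : InfinitePlace k, w x := by
    unfold Nr
    exact Finset.prod_congr rfl (fun v _ => abs_rv v x)
  rw [e, h]
  push_cast
  rfl

theorem card_pl : Fintype.card (Pl k) = dg k := by
  unfold dg
  rw [IsTotallyReal.finrank, card_eq_nrRealPlaces_add_nrComplexPlaces,
    IsTotallyReal.nrComplexPlaces_eq_zero, add_zero]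

theorem sum_rv (x : k) : ∑ v : Pl k, rv v x = ((Algebra.trace ℚ k x : ℚ) : ℝ) := by
  classical
  have h := trace_eq_sum_embeddings (K := ℚ) (L := k) ℂ (x := x)
  have e1 : (∑ σ : k →ₐ[ℚ] ℂ, σ x) = ∑ φ : k →+* ℂ, φ x :=
    (Fintype.sum_equiv (RingHom.equivRatAlgHom k ℂ) (fun f => f x) (fun φ => φ x)
      (fun f => by simp [RingHom.equivRatAlgHom_apply])).symm
  have e2 : (∑ v : Pl k, ((rv v x : ℝ) : ℂ)) = ∑ φ : k →+* ℂ, φ x := by
    refine Fintype.sum_bijective (fun v : Pl k => embedding v) ⟨?_, ?_⟩ _ _ ?_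
    · intro v w hvw
      have h2 : embedding v = embedding w := hvw
      rw [← mk_embedding v, ← mk_embedding w, h2]
    · intro φ
      exact ⟨InfinitePlace.mk φ, embedding_mk_eq_of_isReal (IsTotallyReal.complexEmbedding_isReal φ)⟩
    · intro v
      exact embedding_of_isReal_apply (IsTotallyReal.isReal v) x
  have e3 : ((∑ v : Pl k, rv v x : ℝ) : ℂ) = (((Algebra.trace ℚ k x : ℚ) : ℝ) : ℂ) := by
    rw [Complex.ofReal_sum, e2, ← e1, ← h]
    simp
  exact_mod_cast e3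

theorem Nr_mul (x y : k) : Nr (x * y) = Nr x * Nr y := by
  unfold Nr
  rw [← Finset.prod_mul_distrib]
  exact Finset.prod_congr rfl (fun v _ => by rw [map_mul, abs_mul])

theorem Nr_nonneg (x : k) : 0 ≤ Nr x := Finset.prod_nonneg (fun v _ => abs_nonneg _)

theorem Nr_zero_iff (x : k) : Nr x = 0 ↔ x = 0 := by
  rw [Nr_eq, abs_eq_zero]
  constructor
  · intro h
    have h2 : Algebra.norm ℚ x = 0 := by exact_mod_cast h
    exact Algebra.norm_eq_zero_iff.1 h2
  · rintro rfl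
    simp

theorem Nr_int (x : 𝓞 k) : Nr (x : k) = |((Algebra.norm ℤ x : ℤ) : ℝ)| := by
  rw [Nr_eq, ← Algebra.coe_norm_int]
  push_cast
  rfl

theorem nm_span (x : 𝓞 k) : nm (Ideal.span {x}) = Nr (x : k) := by
  rw [Nr_int]
  unfold nm
  rw [Ideal.absNorm_span_singleton, Nat.cast_natAbs, Int.cast_abs]

theorem one_le_Nr (x : 𝓞 k) (hx : x ≠ 0) : 1 ≤ Nr (x : k) := by
  rw [Nr_int, ← Int.cast_abs]
  exact_mod_cast Int.one_le_abs (Algebra.norm_ne_zero_iff.mpr hx)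

theorem Nr_unit (u : (𝓞 k)ˣ) : Nr ((u : 𝓞 k) : k) = 1 := by
  have h : Nr ((u : 𝓞 k) : k) * Nr (((u⁻¹ : (𝓞 k)ˣ) : 𝓞 k) : k) = 1 := by
    rw [← Nr_mul]
    have : (((u : 𝓞 k) : k) * (((u⁻¹ : (𝓞 k)ˣ) : 𝓞 k) : k)) = 1 := by
      have h3 : ((u : 𝓞 k) * ((u⁻¹ : (𝓞 k)ˣ) : 𝓞 k)) = 1 := Units.mul_inv u
      have h4 := congrArg (fun z : 𝓞 k => (z : k)) h3
      simpa using h4
    rw [this]
    unfold Nr
    simp
  have h1 : 1 ≤ Nr ((u : 𝓞 k) : k) := one_le_Nr _ u.ne_zero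
  have h2 : 1 ≤ Nr (((u⁻¹ : (𝓞 k)ˣ) : 𝓞 k) : k) := one_le_Nr _ (u⁻¹).ne_zero
  nlinarith

theorem one_le_nm (I : Ideal (𝓞 k)) (h : I ≠ ⊥) : 1 ≤ nm I := by
  unfold nm
  have h2 : Ideal.absNorm I ≠ 0 := fun h3 => h (Ideal.absNorm_eq_zero_iff.1 h3)
  exact_mod_cast Nat.one_le_iff_ne_zero.2 h2

theorem nm_le_of_le {I J : Ideal (𝓞 k)} (h : J ≤ I) (hJ : J ≠ ⊥) : nm I ≤ nm J := by
  unfold nm
  have h1 := Ideal.absNorm_dvd_absNorm_of_le h
  have h2 : Ideal.absNorm J ≠ 0 := fun h3 => hJ (Ideal.absNorm_eq_zero_iff.1 h3)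
  exact_mod_cast Nat.le_of_dvd (Nat.pos_of_ne_zero h2) h1

theorem nm_le_Nr (I : Ideal (𝓞 k)) (x : 𝓞 k) (hx : x ∈ I) (h0 : x ≠ 0) : nm I ≤ Nr (x : k) := by
  rw [← nm_span]
  refine nm_le_of_le ((Ideal.span_singleton_le_iff_mem I).2 hx) ?_
  rw [Ne, Ideal.span_singleton_eq_bot]
  exact h0

theorem mem_den (x : k) (a : 𝓞 k) : a ∈ den x ↔ Int' ((a : k) * x) := Iff.rfl

theorem exists_frac (x : k) : ∃ p q : 𝓞 k, q ≠ 0 ∧ (q : k) * x = (p : k) := by
  obtain ⟨p, q, hq, h⟩ := IsFractionRing.div_surjective (A := 𝓞 k) x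
  have hq0 : q ≠ 0 := nonZeroDivisors.ne_zero hq
  refine ⟨p, q, hq0, ?_⟩
  have hq1 : (q : k) ≠ 0 := by
    intro h5
    exact hq0 (by exact_mod_cast h5)
  rw [← h]
  change (q : k) * ((p : k) / (q : k)) = (p : k)
  field_simp

theorem den_ne_bot (x : k) : den x ≠ ⊥ := by
  obtain ⟨p, q, hq, h⟩ := exists_frac x
  intro h2
  have h3 : q ∈ den x := ⟨p, h.symm⟩
  rw [h2, Ideal.mem_bot] at h3
  exact hq h3

theorem den_sub (x y : k) : nm (den (x - y)) ≤ nm (den x) * nm (den y) := by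
  have h1 : den x * den y ≤ den (x - y) := by
    rw [Ideal.mul_le]
    rintro r ⟨a, ha⟩ s ⟨b, hb⟩
    refine ⟨s * a - r * b, ?_⟩
    have e1 : ((s * a - r * b : 𝓞 k) : k) = (s : k) * (a : k) - (r : k) * (b : k) := by
      push_cast; rfl
    have e2 : ((r * s : 𝓞 k) : k) = (r : k) * (s : k) := by push_cast; rfl
    rw [e1, e2, ha, hb]
    ring
  have h2 : den x * den y ≠ ⊥ := by
    rw [Ne, Ideal.mul_eq_bot]
    rintro (h | h)
    · exact den_ne_bot x h
    · exact den_ne_bot y h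
  have h3 := nm_le_of_le h1 h2
  have h4 : nm (den x * den y) = nm (den x) * nm (den y) := by
    unfold nm
    rw [map_mul]
    push_cast
    rfl
  rwa [h4] at h3

/-- the numerator of a number -/
def nume (x : k) : Ideal (𝓞 k) where
  carrier := {y | ∃ c ∈ den x, (y : k) = (c : k) * x}
  zero_mem' := ⟨0, (den x).zero_mem, by simp⟩
  add_mem' := by
    rintro a b ⟨c, hc, e⟩ ⟨d, hd, f⟩
    refine ⟨c + d, (den x).add_mem hc hd, ?_⟩
    have h : ((a + b : 𝓞 k) : k) = (a : k) + b := rfl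
    have h' : ((c + d : 𝓞 k) : k) = (c : k) + d := rfl
    rw [h, h', e, f]; ring
  smul_mem' := by
    rintro r a ⟨c, hc, e⟩
    refine ⟨r * c, (den x).mul_mem_left r hc, ?_⟩
    have h : ((r • a : 𝓞 k) : k) = (r : k) * a := rfl
    have h' : ((r * c : 𝓞 k) : k) = (r : k) * c := rfl
    rw [h, h', e]; ring

theorem mem_nume (x : k) (y : 𝓞 k) : y ∈ nume x ↔ ∃ c ∈ den x, (y : k) = (c : k) * x := Iff.rfl

theorem nm_mul (I J : Ideal (𝓞 k)) : nm (I * J) = nm I * nm J := by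
  unfold nm
  rw [map_mul]
  push_cast
  rfl

theorem den_low (x : k) (hx : x ≠ 0) : 1 ≤ Nr x * nm (den x) := by
  obtain ⟨p, q, hq, h⟩ := exists_frac x
  have hq1 : (q : k) ≠ 0 := by
    intro h5
    exact hq (by exact_mod_cast h5)
  have key : Ideal.span {p} * den x = Ideal.span {q} * nume x := by
    ext y
    rw [Ideal.mem_span_singleton_mul, Ideal.mem_span_singleton_mul]
    constructor
    · rintro ⟨c, hc, rfl⟩
      obtain ⟨z, hz⟩ := (mem_den x c).1 hc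
      refine ⟨z, ⟨c, hc, hz⟩, ?_⟩
      have e : ((q * z : 𝓞 k) : k) = ((p * c : 𝓞 k) : k) := by
        have e1 : ((q * z : 𝓞 k) : k) = (q : k) * (z : k) := by push_cast; rfl
        have e2 : ((p * c : 𝓞 k) : k) = (p : k) * (c : k) := by push_cast; rfl
        rw [e1, e2, hz, ← h]
        ring
      exact RingOfIntegers.ext e
    · rintro ⟨z, ⟨c, hc, hz⟩, rfl⟩
      refine ⟨c, hc, ?_⟩
      have e : ((p * c : 𝓞 k) : k) = ((q * z : 𝓞 k) : k) := by
        have e1 : ((q * z : 𝓞 k) : k) = (q : k) * (z : k) := by push_cast; rfl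
        have e2 : ((p * c : 𝓞 k) : k) = (p : k) * (c : k) := by push_cast; rfl
        rw [e1, e2, hz, ← h]
        ring
      exact RingOfIntegers.ext e
  have hne : nume x ≠ ⊥ := by
    have h3 : q ∈ den x := ⟨p, h.symm⟩
    have h4 : p ∈ nume x := ⟨q, h3, h.symm⟩
    intro h5
    rw [h5, Ideal.mem_bot] at h4
    rw [h4] at h
    have h6 : (q : k) * x = 0 := by simpa using h
    rcases mul_eq_zero.1 h6 with h7 | h7
    · exact hq1 h7
    · exact hx h7
  have h1 : nm (Ideal.span {p} * den x) = nm (Ideal.span {q} * nume x) := by rw [key]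
  rw [nm_mul, nm_mul, nm_span, nm_span, ← h, Nr_mul] at h1
  have hqp : 0 < Nr (q : k) := lt_of_lt_of_le one_pos (one_le_Nr q hq)
  have h2 : Nr x * nm (den x) = nm (nume x) := by
    have h8 : Nr (q : k) * (Nr x * nm (den x)) = Nr (q : k) * nm (nume x) := by
      rw [← h1]; ring
    exact mul_left_cancel₀ hqp.ne' h8
  rw [h2]
  exact one_le_nm _ hne

variable (k)

theorem pf_EMB : T_EMB k := by
  refine ⟨card_pl, ?_, ?_, Nr_eq, sum_rv, Nr_mul, fun x => ⟨Nr_nonneg x, Nr_zero_iff x⟩,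
    Nr_unit, nm_span, one_le_Nr, fun I hI => ⟨one_le_nm I hI, nm_le_Nr I⟩,
    fun x y => ⟨den_ne_bot x, den_sub x y, den_low x⟩⟩
  · exact Module.finrank_pos
  · exact Int.natAbs_pos.2 (discr_ne_zero k)

end

end Pool.Agent.H98.CM4
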